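import Mathlib

set_option autoImplicit false

/-! # From averages over boxes to values of generic linear forms

If `F ≥ 0` is a function of two integers with `∑_{|a|, |b| ≤ N} F(a, b) ≤ C N ^ 2`, and `v_k` are any real
vectors of maximum norm at least `1`, then for almost all pairs of vectors `x, y` the values of `F` at the
integer parts of `x · v_k`, `y · v_k` are summable against every given summable weight. -/

namespace Pool.Agent.K6.H86.MF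

open MeasureTheory Finset Filter

variable {ι : Type} [Fintype ι] [DecidableEq ι]

/-- the box -/
def Bx (ι : Type) (S : ℕ) : Set (ι → ℝ) := {x | ∀ i, |x i| ≤ S}

/-- the slab -/
def Slab (v : ι → ℝ) (S : ℕ) (a : ℤ) : Set (ι → ℝ) := {x | (∀ i, |x i| ≤ S) ∧ ⌊x ⬝ᵥ v⌋ = a}

omit [Fintype ι] [DecidableEq ι] in
lemma bx_meas [Countable ι] (S : ℕ) : MeasurableSet (Bx ι S) := by
  have : Bx ι S = ⋂ i, {x : ι → ℝ | |x i| ≤ S} := by
    ext x; simp [Bx]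
  rw [this]
  exact MeasurableSet.iInter fun i => measurableSet_le ((measurable_pi_apply i).abs) measurable_const

omit [DecidableEq ι] in
lemma dot_meas (v : ι → ℝ) : Measurable fun x : ι → ℝ => x ⬝ᵥ v := by
  unfold dotProduct
  fun_prop

omit [DecidableEq ι] in
lemma slab_meas (v : ι → ℝ) (S : ℕ) (a : ℤ) : MeasurableSet (Slab v S a) :=
  (bx_meas S).inter ((dot_meas v).floor (measurableSet_singleton a))

lemma det_T (i : ι) (v : ι → ℝ) : ((1 : Matrix ι ι ℝ).updateRow i v).det = v i := by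
  rw [← Matrix.det_transpose, ← Matrix.updateCol_transpose, Matrix.transpose_one, ← Matrix.cramer_apply,
    Matrix.cramer_one]
  rfl

lemma slab_vol (v : ι → ℝ) (i : ι) (hi : v i ≠ 0) (S : ℕ) (hS : 1 ≤ S) (a : ℤ) :
    volume (Slab v S a) ≤ ENNReal.ofReal (|v i|⁻¹ * (2 * (S : ℝ)) ^ Fintype.card ι) := by
  have hSr : (1 : ℝ) ≤ S := by exact_mod_cast hS
  have h1 : Slab v S a ⊆ (Matrix.toLin' ((1 : Matrix ι ι ℝ).updateRow i v)) ⁻¹' (Set.Icc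
      (fun j : ι => if j = i then (a : ℝ) else -(S : ℝ)) (fun j : ι => if j = i then (a : ℝ) + 1 else (S : ℝ))) := by
    rintro x ⟨hx1, hx2⟩
    have hT : ∀ j, (Matrix.toLin' ((1 : Matrix ι ι ℝ).updateRow i v)) x j = if j = i then x ⬝ᵥ v else x j := by
      intro j
      rw [Matrix.toLin'_apply]
      by_cases hj : j = i
      · subst hj
        rw [if_pos rfl]
        simp [Matrix.mulVec, dotProduct_comm]
      · rw [if_neg hj]
        simp [Matrix.mulVec, Matrix.updateRow_ne hj, Matrix.one_apply, dotProduct]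
    have hfl := Int.floor_eq_iff.1 hx2
    rw [Set.mem_preimage, Set.mem_Icc]
    constructor
    · intro j
      rw [hT]
      dsimp only
      split_ifs with h
      · exact hfl.1
      · exact (abs_le.1 (hx1 j)).1
    · intro j
      rw [hT]
      dsimp only
      split_ifs with h
      · exact hfl.2.le
      · exact (abs_le.1 (hx1 j)).2
  refine (measure_mono h1).trans ?_
  rw [Measure.addHaar_preimage_linearMap volume (by rw [LinearMap.det_toLin', det_T]; exact hi),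
    LinearMap.det_toLin', det_T, Real.volume_Icc_pi, ENNReal.ofReal_mul (by positivity), abs_inv]
  gcongr
  rw [ENNReal.ofReal_pow (by positivity), ← Finset.card_univ, ← Finset.prod_const]
  apply Finset.prod_le_prod' fun j _ => ?_
  apply ENNReal.ofReal_le_ofReal
  split_ifs
  · linarith
  · linarith

omit [DecidableEq ι] in
lemma meas_F (v : ι → ℝ) (F : ℤ → ℤ → ENNReal) :
    Measurable fun p : (ι → ℝ) × (ι → ℝ) => F ⌊p.1 ⬝ᵥ v⌋ ⌊p.2 ⬝ᵥ v⌋ := by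
  have h1 : Measurable fun p : (ι → ℝ) × (ι → ℝ) => (⌊p.1 ⬝ᵥ v⌋, ⌊p.2 ⬝ᵥ v⌋) :=
    (((dot_meas v).comp measurable_fst).floor).prodMk (((dot_meas v).comp measurable_snd).floor)
  have h2 : Measurable fun p : ℤ × ℤ => F p.1 p.2 := Measurable.of_discrete
  exact h2.comp h1

/-- the average of `F` over the cells -/
theorem one_step (F : ℤ → ℤ → ENNReal) (C : ENNReal)
    (hF : ∀ N : ℕ, 1 ≤ N → ∑ t ∈ Icc (-(N : ℤ)) N ×ˢ Icc (-(N : ℤ)) N, F t.1 t.2 ≤ C * (N : ENNReal) ^ 2)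
    (v : ι → ℝ) (i : ι) (hv : 1 ≤ |v i|) (hmax : ∀ j, |v j| ≤ |v i|) (S : ℕ) (hS : 1 ≤ S) :
    ∫⁻ p in (Bx ι S ×ˢ Bx ι S), F ⌊p.1 ⬝ᵥ v⌋ ⌊p.2 ⬝ᵥ v⌋ ≤
      C * ENNReal.ofReal ((3 * Fintype.card ι * S * (2 * (S : ℝ)) ^ Fintype.card ι) ^ 2) := by
  have hSr : (1 : ℝ) ≤ S := by exact_mod_cast hS
  have hv0 : v i ≠ 0 := by
    intro h
    rw [h, abs_zero] at hv
    linarith
  obtain ⟨Q, hQ⟩ : ∃ Q : ℝ, Q = |v i| := ⟨_, rfl⟩
  obtain ⟨n, hn⟩ : ∃ n : ℕ, n = Fintype.card ι := ⟨_, rfl⟩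
  have hn1 : 1 ≤ n := by
    rw [hn]
    exact Fintype.card_pos_iff.2 ⟨i⟩
  have hnr : (1 : ℝ) ≤ n := by exact_mod_cast hn1
  rw [← hQ] at hv hmax
  obtain ⟨N, hN⟩ : ∃ N : ℕ, N = ⌈n * S * Q⌉₊ + 1 := ⟨_, rfl⟩
  have hN1 : 1 ≤ N := by omega
  have hnSQ : 1 ≤ n * S * Q := by
    have : (1 : ℝ) ≤ n * S := by nlinarith
    nlinarith
  have hNle : (N : ℝ) ≤ 3 * n * S * Q := by
    have h1 : (⌈n * S * Q⌉₊ : ℝ) < n * S * Q + 1 := Nat.ceil_lt_add_one (by positivity)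
    rw [hN]
    push_cast
    linarith
  -- the values on the box
  have hb : ∀ x ∈ Bx ι S, ⌊x ⬝ᵥ v⌋ ∈ Icc (-(N : ℤ)) N := by
    intro x hx
    have hb : |x ⬝ᵥ v| ≤ n * S * Q := by
      unfold dotProduct
      calc |∑ j, x j * v j| ≤ ∑ j, |x j * v j| := Finset.abs_sum_le_sum_abs _ _
        _ ≤ ∑ _j : ι, (S : ℝ) * Q := by
          apply Finset.sum_le_sum
          intro j _
          rw [abs_mul]
          exact mul_le_mul (hx j) (hmax j) (abs_nonneg _) (by positivity)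
        _ = n * S * Q := by
          rw [Finset.sum_const, Finset.card_univ, ← hn, nsmul_eq_mul]
          ring
    have h1 := abs_le.1 hb
    have h2 : n * S * Q ≤ ⌈n * S * Q⌉₊ := Nat.le_ceil _
    rw [mem_Icc]
    constructor
    · rw [Int.le_floor, hN]
      push_cast
      linarith [h1.1]
    · have h3 : ⌊x ⬝ᵥ v⌋ ≤ ((⌈n * S * Q⌉₊ : ℕ) : ℤ) := by
        have : (⌊x ⬝ᵥ v⌋ : ℝ) ≤ ((⌈n * S * Q⌉₊ : ℕ) : ℤ) := by
          push_cast
          exact (Int.floor_le _).trans (h1.2.trans h2)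
        exact_mod_cast this
      rw [hN]
      push_cast
      linarith
  have hvol : ∀ a b : ℤ, volume (Slab v S a ×ˢ Slab v S b) ≤
      ENNReal.ofReal ((Q⁻¹ * (2 * (S : ℝ)) ^ n) ^ 2) := by
    intro a b
    rw [Measure.volume_eq_prod, Measure.prod_prod, sq, ENNReal.ofReal_mul (by positivity), hQ, hn]
    exact mul_le_mul' (slab_vol v i hv0 S hS a) (slab_vol v i hv0 S hS b)
  calc ∫⁻ p in (Bx ι S ×ˢ Bx ι S), F ⌊p.1 ⬝ᵥ v⌋ ⌊p.2 ⬝ᵥ v⌋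
      ≤ ∫⁻ p in (Bx ι S ×ˢ Bx ι S), ∑ t ∈ Icc (-(N : ℤ)) N ×ˢ Icc (-(N : ℤ)) N,
          (Slab v S t.1 ×ˢ Slab v S t.2).indicator (fun _ => F t.1 t.2) p := by
        apply setLIntegral_mono' ((bx_meas S).prod (bx_meas S))
        intro p hp
        have h1 : (⌊p.1 ⬝ᵥ v⌋, ⌊p.2 ⬝ᵥ v⌋) ∈ Icc (-(N : ℤ)) N ×ˢ Icc (-(N : ℤ)) N :=
          mem_product.2 ⟨hb _ hp.1, hb _ hp.2⟩
        calc F ⌊p.1 ⬝ᵥ v⌋ ⌊p.2 ⬝ᵥ v⌋ =
            (Slab v S ⌊p.1 ⬝ᵥ v⌋ ×ˢ Slab v S ⌊p.2 ⬝ᵥ v⌋).indicator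
              (fun _ => F ⌊p.1 ⬝ᵥ v⌋ ⌊p.2 ⬝ᵥ v⌋) p := by
              rw [Set.indicator_of_mem]
              exact ⟨⟨hp.1, rfl⟩, ⟨hp.2, rfl⟩⟩
          _ ≤ _ := Finset.single_le_sum
              (f := fun t : ℤ × ℤ => (Slab v S t.1 ×ˢ Slab v S t.2).indicator (fun _ => F t.1 t.2) p)
              (fun _ _ => zero_le) h1
    _ ≤ ∫⁻ p, ∑ t ∈ Icc (-(N : ℤ)) N ×ˢ Icc (-(N : ℤ)) N,
          (Slab v S t.1 ×ˢ Slab v S t.2).indicator (fun _ => F t.1 t.2) p := setLIntegral_le_lintegral _ _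
    _ = ∑ t ∈ Icc (-(N : ℤ)) N ×ˢ Icc (-(N : ℤ)) N, F t.1 t.2 * volume (Slab v S t.1 ×ˢ Slab v S t.2) := by
        rw [lintegral_finsetSum _ (fun t _ => measurable_const.indicator ((slab_meas v S t.1).prod (slab_meas v S t.2)))]
        apply Finset.sum_congr rfl
        intro t _
        rw [lintegral_indicator ((slab_meas v S t.1).prod (slab_meas v S t.2)), lintegral_const,
          Measure.restrict_apply MeasurableSet.univ, Set.univ_inter]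
    _ ≤ ∑ t ∈ Icc (-(N : ℤ)) N ×ˢ Icc (-(N : ℤ)) N, F t.1 t.2 * ENNReal.ofReal ((Q⁻¹ * (2 * (S : ℝ)) ^ n) ^ 2) := by
        apply Finset.sum_le_sum
        intro t _
        gcongr
        exact hvol t.1 t.2
    _ = (∑ t ∈ Icc (-(N : ℤ)) N ×ˢ Icc (-(N : ℤ)) N, F t.1 t.2) * ENNReal.ofReal ((Q⁻¹ * (2 * (S : ℝ)) ^ n) ^ 2) := by
        rw [Finset.sum_mul]
    _ ≤ C * (N : ENNReal) ^ 2 * ENNReal.ofReal ((Q⁻¹ * (2 * (S : ℝ)) ^ n) ^ 2) := by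
        gcongr
        exact hF N hN1
    _ = C * ((N : ENNReal) ^ 2 * ENNReal.ofReal ((Q⁻¹ * (2 * (S : ℝ)) ^ n) ^ 2)) := by rw [mul_assoc]
    _ ≤ C * ENNReal.ofReal ((3 * n * S * (2 * (S : ℝ)) ^ n) ^ 2) := by
        gcongr
        have e : (N : ENNReal) ^ 2 = ENNReal.ofReal ((N : ℝ) ^ 2) := by
          rw [ENNReal.ofReal_pow (by positivity), ENNReal.ofReal_natCast]
        rw [e, ← ENNReal.ofReal_mul (by positivity)]
        apply ENNReal.ofReal_le_ofReal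
        rw [← mul_pow]
        apply pow_le_pow_left₀ (by positivity)
        have hQ0 : 0 < Q := by linarith
        calc (N : ℝ) * (Q⁻¹ * (2 * (S : ℝ)) ^ n) ≤ (3 * n * S * Q) * (Q⁻¹ * (2 * (S : ℝ)) ^ n) := by gcongr
          _ = 3 * n * S * (2 * (S : ℝ)) ^ n * (Q * Q⁻¹) := by ring
          _ = _ := by rw [mul_inv_cancel₀ hQ0.ne', mul_one]
    _ = _ := by rw [hn]

/-- **Generic linear forms.** -/
theorem ae_summable (F : ℤ → ℤ → ℝ) (hF0 : ∀ a b, 0 ≤ F a b) (C : ℝ)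
    (hF : ∀ N : ℕ, 1 ≤ N → ∑ t ∈ Icc (-(N : ℤ)) N ×ˢ Icc (-(N : ℤ)) N, F t.1 t.2 ≤ C * (N : ℝ) ^ 2)
    (v : ℕ → ι → ℝ) (hv : ∀ k, ∃ i, 1 ≤ |v k i|)
    (w : ℕ → ℝ) (hw0 : ∀ k, 0 ≤ w k) (hw : Summable w) :
    ∀ᵐ p : (ι → ℝ) × (ι → ℝ), Summable fun k => w k * F ⌊p.1 ⬝ᵥ v k⌋ ⌊p.2 ⬝ᵥ v k⌋ := by
  have hv' : ∀ k, ∃ i, 1 ≤ |v k i| ∧ ∀ j, |v k j| ≤ |v k i| := by
    intro k
    obtain ⟨i0, hi0⟩ := hv k
    obtain ⟨i, -, hi⟩ := Finset.exists_max_image Finset.univ (fun j => |v k j|) ⟨i0, Finset.mem_univ i0⟩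
    exact ⟨i, hi0.trans (hi i0 (Finset.mem_univ _)), fun j => hi j (Finset.mem_univ _)⟩
  choose i hi1 hi2 using hv'
  obtain ⟨G, hG⟩ : ∃ G : ℤ → ℤ → ENNReal, ∀ a b, G a b = ENNReal.ofReal (F a b) := ⟨_, fun _ _ => rfl⟩
  have hGs : ∀ N : ℕ, 1 ≤ N → ∑ t ∈ Icc (-(N : ℤ)) N ×ˢ Icc (-(N : ℤ)) N, G t.1 t.2 ≤
      ENNReal.ofReal C * (N : ENNReal) ^ 2 := by
    intro N hN
    simp only [hG]
    rw [← ENNReal.ofReal_sum_of_nonneg (fun t _ => hF0 _ _)]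
    have e : (N : ENNReal) ^ 2 = ENNReal.ofReal ((N : ℝ) ^ 2) := by
      rw [ENNReal.ofReal_pow (by positivity), ENNReal.ofReal_natCast]
    rw [e, ← ENNReal.ofReal_mul' (by positivity)]
    exact ENNReal.ofReal_le_ofReal (hF N hN)
  have key : ∀ S : ℕ, ∀ᵐ p : (ι → ℝ) × (ι → ℝ), p ∈ (Bx ι (S + 1) ×ˢ Bx ι (S + 1)) →
      ∑' k, ENNReal.ofReal (w k) * G ⌊p.1 ⬝ᵥ v k⌋ ⌊p.2 ⬝ᵥ v k⌋ < ⊤ := by
    intro S
    have hmeas : MeasurableSet (Bx ι (S + 1) ×ˢ Bx ι (S + 1)) := (bx_meas _).prod (bx_meas _)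
    rw [← ae_restrict_iff' hmeas]
    have hm : ∀ k, Measurable fun p : (ι → ℝ) × (ι → ℝ) =>
        ENNReal.ofReal (w k) * G ⌊p.1 ⬝ᵥ v k⌋ ⌊p.2 ⬝ᵥ v k⌋ := fun k =>
      (meas_F (v k) G).const_mul _
    apply ae_lt_top (Measurable.ennreal_tsum hm)
    rw [lintegral_tsum (fun k => (hm k).aemeasurable)]
    have h1 : ∀ k, ∫⁻ p in (Bx ι (S + 1) ×ˢ Bx ι (S + 1)), ENNReal.ofReal (w k) * G ⌊p.1 ⬝ᵥ v k⌋ ⌊p.2 ⬝ᵥ v k⌋ ≤
        ENNReal.ofReal (w k) * (ENNReal.ofReal C * ENNReal.ofReal ((3 * Fintype.card ι * ((S + 1 : ℕ) : ℝ) *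
          (2 * ((S + 1 : ℕ) : ℝ)) ^ Fintype.card ι) ^ 2)) := by
      intro k
      rw [lintegral_const_mul _ (meas_F (v k) G)]
      gcongr
      exact one_step G _ hGs (v k) (i k) (hi1 k) (hi2 k) (S + 1) (by omega)
    refine ne_of_lt (lt_of_le_of_lt (ENNReal.tsum_le_tsum h1) ?_)
    rw [ENNReal.tsum_mul_right, ← ENNReal.ofReal_tsum_of_nonneg hw0 hw]
    exact ENNReal.mul_lt_top ENNReal.ofReal_lt_top (ENNReal.mul_lt_top ENNReal.ofReal_lt_top ENNReal.ofReal_lt_top)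
  filter_upwards [ae_all_iff.2 key] with p hp
  obtain ⟨S, hS⟩ : ∃ S : ℕ, p ∈ (Bx ι (S + 1) ×ˢ Bx ι (S + 1)) := by
    obtain ⟨n0, h0⟩ := exists_nat_ge (∑ j, |p.1 j|)
    obtain ⟨n1, h1⟩ := exists_nat_ge (∑ j, |p.2 j|)
    have e0 : (0 : ℝ) ≤ n0 := Nat.cast_nonneg _
    have e1 : (0 : ℝ) ≤ n1 := Nat.cast_nonneg _
    refine ⟨n0 + n1, fun j => ?_, fun j => ?_⟩
    · have h2 := Finset.single_le_sum (f := fun j => |p.1 j|) (fun _ _ => abs_nonneg _) (Finset.mem_univ j)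
      push_cast
      linarith
    · have h2 := Finset.single_le_sum (f := fun j => |p.2 j|) (fun _ _ => abs_nonneg _) (Finset.mem_univ j)
      push_cast
      linarith
  have h2 := (hp S hS).ne
  have h3 := ENNReal.summable_toReal h2
  refine h3.congr fun k => ?_
  rw [ENNReal.toReal_mul, ENNReal.toReal_ofReal (hw0 k), hG, ENNReal.toReal_ofReal (hF0 _ _)]

end Pool.Agent.K6.H86.MF
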