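import Mathlib

set_option autoImplicit false

/-! # From averages over boxes to generic thin sequences

If `F ≥ 0` is a function of two integers with `∑_{|a|, |b| ≤ N} F(a, b) ≤ C N ^ 2`, and `A_k` are any real
`2 x 2` matrices of bounded eccentricity, then for almost all `x` in the plane the values of `F` at the integer
parts of the coordinates of `A_k x` are summable against every given summable weight. -/

namespace Pool.Agent.K6.H86.MR

open MeasureTheory Finset Filter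

/-- the box -/
def Bx (S : ℕ) : Set (Fin 2 → ℝ) := {x | ∀ i, |x i| ≤ S}

/-- the cell -/
def Cell (A : Matrix (Fin 2) (Fin 2) ℝ) (a b : ℤ) : Set (Fin 2 → ℝ) :=
  {x | ⌊(A.mulVec x) 0⌋ = a ∧ ⌊(A.mulVec x) 1⌋ = b}

lemma cell_vol (A : Matrix (Fin 2) (Fin 2) ℝ) (hA : A.det ≠ 0) (a b : ℤ) :
    volume (Cell A a b) = ENNReal.ofReal |A.det⁻¹| := by
  have h1 : Cell A a b = (Matrix.toLin' A) ⁻¹' (Set.pi Set.univ
      (fun i : Fin 2 => Set.Ico ((![(a : ℝ), (b : ℝ)] : Fin 2 → ℝ) i) ((![(a : ℝ) + 1, (b : ℝ) + 1] : Fin 2 → ℝ) i))) := by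
    ext x
    simp only [Cell, Set.mem_setOf_eq, Set.mem_preimage, Set.mem_pi, Set.mem_univ, true_imp_iff,
      Matrix.toLin'_apply, Fin.forall_fin_two, Set.mem_Ico, Int.floor_eq_iff, Matrix.cons_val_zero,
      Matrix.cons_val_one]
  rw [h1, Measure.addHaar_preimage_linearMap volume (by rw [LinearMap.det_toLin']; exact hA),
    LinearMap.det_toLin', Real.volume_pi_Ico]
  simp [Fin.prod_univ_two]

lemma cell_meas (A : Matrix (Fin 2) (Fin 2) ℝ) (a b : ℤ) : MeasurableSet (Cell A a b) := by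
  have h0 : ∀ i, Measurable fun x : Fin 2 → ℝ => (A.mulVec x) i := by
    intro i
    exact ((continuous_apply i).comp (Continuous.matrix_mulVec continuous_const continuous_id)).measurable
  exact ((h0 0).floor (measurableSet_singleton a)).inter ((h0 1).floor (measurableSet_singleton b))

lemma meas_F (A : Matrix (Fin 2) (Fin 2) ℝ) (F : ℤ → ℤ → ENNReal) :
    Measurable fun x : Fin 2 → ℝ => F ⌊(A.mulVec x) 0⌋ ⌊(A.mulVec x) 1⌋ := by
  have h0 : ∀ i, Measurable fun x : Fin 2 → ℝ => (A.mulVec x) i := by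
    intro i
    exact ((continuous_apply i).comp (Continuous.matrix_mulVec continuous_const continuous_id)).measurable
  have h1 : Measurable fun x : Fin 2 → ℝ => (⌊(A.mulVec x) 0⌋, ⌊(A.mulVec x) 1⌋) :=
    (h0 0).floor.prodMk (h0 1).floor
  have h2 : Measurable fun p : ℤ × ℤ => F p.1 p.2 := Measurable.of_discrete
  exact h2.comp h1

/-- the average of `F` over the cells -/
theorem one_step (F : ℤ → ℤ → ENNReal) (C : ENNReal)
    (hF : ∀ N : ℕ, 1 ≤ N → ∑ t ∈ Icc (-(N : ℤ)) N ×ˢ Icc (-(N : ℤ)) N, F t.1 t.2 ≤ C * (N : ENNReal) ^ 2)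
    (c Q : ℝ) (hc : 0 < c) (hQ : 1 ≤ Q) (A : Matrix (Fin 2) (Fin 2) ℝ) (hA : ∀ i j, |A i j| ≤ Q)
    (hdet : c * Q ^ 2 ≤ |A.det|) (S : ℕ) (hS : 1 ≤ S) :
    ∫⁻ x in Bx S, F ⌊(A.mulVec x) 0⌋ ⌊(A.mulVec x) 1⌋ ≤ C * ENNReal.ofReal (16 * S ^ 2 / c) := by
  have hSr : (1 : ℝ) ≤ S := by exact_mod_cast hS
  obtain ⟨N, hN⟩ : ∃ N : ℕ, N = ⌈2 * Q * S⌉₊ + 1 := ⟨_, rfl⟩
  have hN1 : 1 ≤ N := by omega
  have hd0 : 0 < |A.det| := lt_of_lt_of_le (by positivity) hdet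
  have hd : A.det ≠ 0 := abs_pos.1 hd0
  have hNle : (N : ℝ) ≤ 4 * Q * S := by
    have h1 : (⌈2 * Q * S⌉₊ : ℝ) < 2 * Q * S + 1 := Nat.ceil_lt_add_one (by positivity)
    have h2 : 1 ≤ Q * S := by nlinarith
    rw [hN]
    push_cast
    linarith
  -- the cells that meet the box
  have hcov : ∀ x ∈ Bx S, (⌊(A.mulVec x) 0⌋, ⌊(A.mulVec x) 1⌋) ∈ Icc (-(N : ℤ)) N ×ˢ Icc (-(N : ℤ)) N := by
    intro x hx
    have hb : ∀ i, |(A.mulVec x) i| ≤ 2 * Q * S := by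
      intro i
      have e : (A.mulVec x) i = A i 0 * x 0 + A i 1 * x 1 := by
        simp [Matrix.mulVec, dotProduct, Fin.sum_univ_two]
      rw [e]
      calc |A i 0 * x 0 + A i 1 * x 1| ≤ |A i 0 * x 0| + |A i 1 * x 1| := abs_add_le _ _
        _ = |A i 0| * |x 0| + |A i 1| * |x 1| := by rw [abs_mul, abs_mul]
        _ ≤ Q * S + Q * S := by
          gcongr
          · exact hA i 0
          · exact hx 0
          · exact hA i 1
          · exact hx 1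
        _ = _ := by ring
    have hfl : ∀ i, -(N : ℤ) ≤ ⌊(A.mulVec x) i⌋ ∧ ⌊(A.mulVec x) i⌋ ≤ N := by
      intro i
      have h1 := abs_le.1 (hb i)
      have h2 : 2 * Q * S ≤ ⌈2 * Q * S⌉₊ := Nat.le_ceil _
      constructor
      · rw [Int.le_floor, hN]
        push_cast
        linarith [h1.1]
      · have h3 : ⌊(A.mulVec x) i⌋ ≤ ((⌈2 * Q * S⌉₊ : ℕ) : ℤ) := by
          have : (⌊(A.mulVec x) i⌋ : ℝ) ≤ ((⌈2 * Q * S⌉₊ : ℕ) : ℤ) := by
            push_cast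
            exact (Int.floor_le _).trans (h1.2.trans h2)
          exact_mod_cast this
        rw [hN]
        push_cast
        linarith
    rw [mem_product, mem_Icc, mem_Icc]
    exact ⟨hfl 0, hfl 1⟩
  calc ∫⁻ x in Bx S, F ⌊(A.mulVec x) 0⌋ ⌊(A.mulVec x) 1⌋
      ≤ ∫⁻ x in Bx S, ∑ t ∈ Icc (-(N : ℤ)) N ×ˢ Icc (-(N : ℤ)) N,
          (Cell A t.1 t.2).indicator (fun _ => F t.1 t.2) x := by
        apply setLIntegral_mono' (by
          have : Bx S = ⋂ i, {x : Fin 2 → ℝ | |x i| ≤ S} := by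
            ext x; simp [Bx]
          rw [this]
          exact MeasurableSet.iInter fun i =>
            measurableSet_le ((measurable_pi_apply i).abs) measurable_const)
        intro x hx
        have h1 := hcov x hx
        calc F ⌊(A.mulVec x) 0⌋ ⌊(A.mulVec x) 1⌋ =
            (Cell A ⌊(A.mulVec x) 0⌋ ⌊(A.mulVec x) 1⌋).indicator
              (fun _ => F ⌊(A.mulVec x) 0⌋ ⌊(A.mulVec x) 1⌋) x := by
              rw [Set.indicator_of_mem]
              exact ⟨rfl, rfl⟩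
          _ ≤ _ := Finset.single_le_sum (f := fun t : ℤ × ℤ => (Cell A t.1 t.2).indicator (fun _ => F t.1 t.2) x)
              (fun _ _ => zero_le) h1
    _ ≤ ∫⁻ x, ∑ t ∈ Icc (-(N : ℤ)) N ×ˢ Icc (-(N : ℤ)) N,
          (Cell A t.1 t.2).indicator (fun _ => F t.1 t.2) x := setLIntegral_le_lintegral _ _
    _ = ∑ t ∈ Icc (-(N : ℤ)) N ×ˢ Icc (-(N : ℤ)) N, F t.1 t.2 * ENNReal.ofReal |A.det⁻¹| := by
        rw [lintegral_finset_sum _ (fun t _ => measurable_const.indicator (cell_meas A t.1 t.2))]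
        apply Finset.sum_congr rfl
        intro t _
        rw [lintegral_indicator (cell_meas A t.1 t.2), lintegral_const, Measure.restrict_apply MeasurableSet.univ,
          Set.univ_inter, cell_vol A hd]
    _ = (∑ t ∈ Icc (-(N : ℤ)) N ×ˢ Icc (-(N : ℤ)) N, F t.1 t.2) * ENNReal.ofReal |A.det⁻¹| := by
        rw [Finset.sum_mul]
    _ ≤ C * (N : ENNReal) ^ 2 * ENNReal.ofReal |A.det⁻¹| := by
        gcongr
        exact hF N hN1
    _ = C * ((N : ENNReal) ^ 2 * ENNReal.ofReal |A.det⁻¹|) := by rw [mul_assoc]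
    _ ≤ C * ENNReal.ofReal (16 * S ^ 2 / c) := by
        gcongr
        have e : (N : ENNReal) ^ 2 = ENNReal.ofReal ((N : ℝ) ^ 2) := by
          rw [ENNReal.ofReal_pow (by positivity), ENNReal.ofReal_natCast]
        rw [e, ← ENNReal.ofReal_mul (by positivity)]
        apply ENNReal.ofReal_le_ofReal
        rw [abs_inv, ← div_eq_mul_inv, div_le_div_iff₀ hd0 hc]
        calc (N : ℝ) ^ 2 * c ≤ (4 * Q * S) ^ 2 * c := by gcongr
          _ = 16 * S ^ 2 * (c * Q ^ 2) := by ring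
          _ ≤ 16 * S ^ 2 * |A.det| := by gcongr

/-- **Generic thin sequences.** -/
theorem ae_summable (F : ℤ → ℤ → ℝ) (hF0 : ∀ a b, 0 ≤ F a b) (C : ℝ)
    (hF : ∀ N : ℕ, 1 ≤ N → ∑ t ∈ Icc (-(N : ℤ)) N ×ˢ Icc (-(N : ℤ)) N, F t.1 t.2 ≤ C * (N : ℝ) ^ 2)
    (c : ℝ) (hc : 0 < c) (Q : ℕ → ℝ) (hQ : ∀ k, 1 ≤ Q k) (A : ℕ → Matrix (Fin 2) (Fin 2) ℝ)
    (hA : ∀ k i j, |A k i j| ≤ Q k) (hdet : ∀ k, c * Q k ^ 2 ≤ |(A k).det|)
    (w : ℕ → ℝ) (hw0 : ∀ k, 0 ≤ w k) (hw : Summable w) :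
    ∀ᵐ x : Fin 2 → ℝ, Summable fun k => w k * F ⌊((A k).mulVec x) 0⌋ ⌊((A k).mulVec x) 1⌋ := by
  obtain ⟨G, hG⟩ : ∃ G : ℤ → ℤ → ENNReal, ∀ a b, G a b = ENNReal.ofReal (F a b) := ⟨_, fun _ _ => rfl⟩
  have hGs : ∀ N : ℕ, 1 ≤ N → ∑ t ∈ Icc (-(N : ℤ)) N ×ˢ Icc (-(N : ℤ)) N, G t.1 t.2 ≤
      ENNReal.ofReal C * (N : ENNReal) ^ 2 := by
    intro N hN
    simp only [hG]
    rw [← ENNReal.ofReal_sum_of_nonneg (fun t _ => hF0 _ _)]
    have e : (N : ENNReal) ^ 2 = ENNReal.ofReal ((N : ℝ) ^ 2) := by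
      rw [ENNReal.ofReal_pow (by positivity), ENNReal.ofReal_natCast]
    rw [e, ← ENNReal.ofReal_mul' (by positivity)]
    exact ENNReal.ofReal_le_ofReal (hF N hN)
  have key : ∀ S : ℕ, ∀ᵐ x : Fin 2 → ℝ, x ∈ Bx (S + 1) →
      ∑' k, ENNReal.ofReal (w k) * G ⌊((A k).mulVec x) 0⌋ ⌊((A k).mulVec x) 1⌋ < ⊤ := by
    intro S
    have hmeas : MeasurableSet (Bx (S + 1)) := by
      have : Bx (S + 1) = ⋂ i, {x : Fin 2 → ℝ | |x i| ≤ ((S + 1 : ℕ) : ℝ)} := by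
        ext x; simp [Bx]
      rw [this]
      exact MeasurableSet.iInter fun i =>
        measurableSet_le ((measurable_pi_apply i).abs) measurable_const
    rw [← ae_restrict_iff' hmeas]
    have hm : ∀ k, Measurable fun x : Fin 2 → ℝ =>
        ENNReal.ofReal (w k) * G ⌊((A k).mulVec x) 0⌋ ⌊((A k).mulVec x) 1⌋ := fun k =>
      (meas_F (A k) G).const_mul _
    apply ae_lt_top (Measurable.ennreal_tsum hm)
    rw [lintegral_tsum (fun k => (hm k).aemeasurable)]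
    have h1 : ∀ k, ∫⁻ x in Bx (S + 1), ENNReal.ofReal (w k) * G ⌊((A k).mulVec x) 0⌋ ⌊((A k).mulVec x) 1⌋ ≤
        ENNReal.ofReal (w k) * (ENNReal.ofReal C * ENNReal.ofReal (16 * ((S + 1 : ℕ) : ℝ) ^ 2 / c)) := by
      intro k
      rw [lintegral_const_mul _ (meas_F (A k) G)]
      gcongr
      exact one_step G _ hGs c (Q k) hc (hQ k) (A k) (hA k) (hdet k) (S + 1) (by omega)
    refine ne_of_lt (lt_of_le_of_lt (ENNReal.tsum_le_tsum h1) ?_)
    rw [ENNReal.tsum_mul_right, ← ENNReal.ofReal_tsum_of_nonneg hw0 hw]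
    exact ENNReal.mul_lt_top ENNReal.ofReal_lt_top (ENNReal.mul_lt_top ENNReal.ofReal_lt_top ENNReal.ofReal_lt_top)
  filter_upwards [ae_all_iff.2 key] with x hx
  obtain ⟨S, hS⟩ : ∃ S : ℕ, x ∈ Bx (S + 1) := by
    obtain ⟨n0, h0⟩ := exists_nat_ge |x 0|
    obtain ⟨n1, h1⟩ := exists_nat_ge |x 1|
    refine ⟨n0 + n1, fun i => ?_⟩
    have e0 : (0 : ℝ) ≤ n0 := Nat.cast_nonneg _
    have e1 : (0 : ℝ) ≤ n1 := Nat.cast_nonneg _
    fin_cases i
    · simp only [Fin.zero_eta]; push_cast; linarith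
    · simp only [Fin.mk_one]; push_cast; linarith
  have h2 := (hx S hS).ne
  have h3 := ENNReal.summable_toReal h2
  refine h3.congr fun k => ?_
  rw [ENNReal.toReal_mul, ENNReal.toReal_ofReal (hw0 k), hG, ENNReal.toReal_ofReal (hF0 _ _)]

end Pool.Agent.K6.H86.MR
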